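import Pool.Agent.X12.Leg

/-!
# Quadratic residuosity of a Legendre-symbol determinant

Modulo `p` the entries of the matrix are polynomials in `j ^ 2` and `k ^ 2`, and the matrix is
`W C Vᵀ` with Vandermonde matrices `V`, `W` of the distinct squares `0, 1, 4, …, n ^ 2`, `n = (p-1)/2`,
and a triangular matrix `C` whose diagonal entries are `δ₁ δ₂ ^ s` times the binomial coefficients
`n choose s`.  So the Legendre symbol of the determinant is that of `n choose n/2`, that is, that of
`n!`, and `2 n! = (1 + n!) ^ 2` modulo `p`.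
-/

set_option autoImplicit false

namespace Pool.Agent.Results.MP_f57d9c_nt.ResidueDeterminant

open Matrix Finset Pool.Agent.X12

/-- `D_p(δ₁, δ₂)`: the determinant of the matrix with rows and columns indexed by
`0, 1, …, (p-1)/2` and entries `((j+k)/p) + ((j-k)/p) + δ₁ ((j²+δ₂k²)/p)`. -/
noncomputable def D (p : ℕ) [Fact p.Prime] (d1 d2 : ℤ) : ℤ :=
  Matrix.det (Matrix.of fun j k : Fin ((p + 1) / 2) =>
    legendreSym p ((j : ℤ) + k) + legendreSym p ((j : ℤ) - k) +
      d1 * legendreSym p ((j : ℤ) ^ 2 + d2 * (k : ℤ) ^ 2))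

lemma sum_even_odd {M : Type*} [AddCommMonoid M] (g : ℕ → M) (m : ℕ) :
    ∑ i ∈ range (2 * m + 1), g i = ∑ s ∈ range (m + 1), g (2 * s) + ∑ s ∈ range m, g (2 * s + 1) := by
  induction m with
  | zero => simp
  | succ m ih =>
    rw [show 2 * (m + 1) + 1 = (2 * m + 1) + 1 + 1 by ring, Finset.sum_range_succ,
      Finset.sum_range_succ, ih, Finset.sum_range_succ (fun s => g (2 * s)) (m + 1),
      Finset.sum_range_succ (fun s => g (2 * s + 1)) m]
    rw [show 2 * m + 1 + 1 = 2 * (m + 1) by ring]
    abel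

lemma add_pow_sub_pow {R : Type*} [CommRing R] (x y : R) (m : ℕ) :
    (x + y) ^ (2 * m) + (x - y) ^ (2 * m) =
      ∑ s ∈ range (m + 1), (x ^ 2) ^ (m - s) * (2 * ((2 * m).choose (2 * s) : R)) * (y ^ 2) ^ s := by
  have h1 : (x + y) ^ (2 * m) + (x - y) ^ (2 * m) = ∑ i ∈ range (2 * m + 1),
      ((1 + (-1) ^ i) * (y ^ i * x ^ (2 * m - i) * ((2 * m).choose i : R))) := by
    rw [add_comm x y, add_pow, show x - y = -y + x by ring, add_pow, ← Finset.sum_add_distrib]
    refine Finset.sum_congr rfl fun i _ => ?_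
    rw [neg_pow y i]
    ring
  rw [h1, sum_even_odd]
  have h2 : ∑ s ∈ range m, ((1 + (-1 : R) ^ (2 * s + 1)) * (y ^ (2 * s + 1) *
      x ^ (2 * m - (2 * s + 1)) * ((2 * m).choose (2 * s + 1) : R))) = 0 := by
    refine Finset.sum_eq_zero fun s _ => ?_
    rw [pow_succ, pow_mul]
    simp
  rw [h2, add_zero]
  refine Finset.sum_congr rfl fun s hs => ?_
  have hs' : s ≤ m := Nat.lt_succ_iff.1 (Finset.mem_range.1 hs)
  rw [pow_mul (-1 : R) 2 s, ← pow_mul x 2, ← pow_mul y 2, show 2 * m - 2 * s = 2 * (m - s) by omega]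
  simp
  ring

section

variable {p : ℕ} [Fact p.Prime]

/-- a product over a range with symmetric factors `± 1` -/
lemma prod_symm (f : ℕ → ℤ) (m : ℕ) (hs : ∀ i, i ≤ 2 * m → f (2 * m - i) = f i)
    (h1 : ∀ i, i ≤ 2 * m → f i * f i = 1) : ∏ i ∈ range (2 * m + 1), f i = f m := by
  rw [show 2 * m + 1 = m + (m + 1) by ring, Finset.prod_range_add, Finset.prod_range_succ',
    ← Finset.prod_range_reflect (fun j => f (m + (j + 1)))]
  rw [← mul_assoc, ← Finset.prod_mul_distrib, add_zero]
  have : ∏ i ∈ range m, f i * f (m + (m - 1 - i + 1)) = 1 := by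
    refine Finset.prod_eq_one fun i hi => ?_
    have hi' := Finset.mem_range.1 hi
    rw [show m + (m - 1 - i + 1) = 2 * m - i by omega, hs i (by omega)]
    exact h1 i (by omega)
  rw [this, one_mul]

lemma factorial_sq {n m : ℕ} (hn : p = 2 * n + 1) (hm : n = 2 * m) :
    ((n.factorial : ℕ) : ZMod p) ^ 2 = -1 := by
  have h1 := ZMod.wilsons_lemma p
  have h2 : p - 1 = n + n := by omega
  rw [h2, ← Finset.prod_range_add_one_eq_factorial, Finset.prod_range_add,
    Finset.prod_range_add_one_eq_factorial, Nat.cast_mul,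
    ← Finset.prod_range_reflect] at h1
  have h3 : ((∏ j ∈ range n, (n + (n - 1 - j) + 1) : ℕ) : ZMod p) = (n.factorial : ℕ) := by
    rw [← Finset.prod_range_add_one_eq_factorial, Nat.cast_prod, Nat.cast_prod]
    have h4 : ∀ j ∈ range n, ((n + (n - 1 - j) + 1 : ℕ) : ZMod p) = (-1) * ((j + 1 : ℕ) : ZMod p) := by
      intro j hj
      have hj' := Finset.mem_range.1 hj
      have h0 : ((2 * n + 1 : ℕ) : ZMod p) = 0 := by rw [← hn]; exact ZMod.natCast_self p
      have h5 : (n + (n - 1 - j) + 1) + (j + 1) = 2 * n + 1 := by omega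
      rw [← h5, Nat.cast_add] at h0
      linear_combination h0
    rw [Finset.prod_congr rfl h4, Finset.prod_mul_distrib, Finset.prod_const, Finset.card_range, hm,
      pow_mul]
    simp
  rw [h3] at h1
  rw [sq]
  exact h1

/-- `2 (n choose n/2)` is a quadratic residue -/
lemma qc_two_choose {n m : ℕ} (hn : p = 2 * n + 1) (hm : n = 2 * m) :
    qc p 2 * qc p ((n.choose m : ℕ) : ZMod p) = 1 := by
  have hpp := (Fact.out : p.Prime)
  have h1 : n.choose m * (m.factorial * m.factorial) = n.factorial := by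
    have := Nat.choose_mul_factorial_mul_factorial (n := n) (k := m) (by omega)
    rw [show n - m = m by omega] at this
    rw [← this]; ring
  have hm0 : ((m.factorial : ℕ) : ZMod p) ≠ 0 := by
    rw [Ne, ZMod.natCast_eq_zero_iff, hpp.dvd_factorial]
    omega
  have h2 : qc p ((n.choose m : ℕ) : ZMod p) = qc p ((n.factorial : ℕ) : ZMod p) := by
    rw [← h1]
    push_cast
    rw [qc_mul, qc_mul, qc_sq hm0, mul_one]
  have h3 := factorial_sq hn hm
  set i := ((n.factorial : ℕ) : ZMod p) with hi
  have h4 : (2 : ZMod p) * i = (1 + i) * (1 + i) := by linear_combination -h3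
  have h5 : 1 + i ≠ 0 := by
    intro h
    have h6 : i = -1 := by linear_combination h
    rw [h6] at h3
    have h7 : (2 : ZMod p) = 0 := by linear_combination h3
    have h8 : ((2 : ℕ) : ZMod p) = 0 := by exact_mod_cast h7
    rw [ZMod.natCast_eq_zero_iff] at h8
    have := Nat.le_of_dvd (by norm_num) h8
    have := hpp.two_le
    omega
  rw [h2, ← qc_mul, h4, qc_mul, qc_sq h5]

/-- **Q1 of the problem, answered affirmatively.** For every prime `p ≡ 1 (mod 4)` and all signs
`δ₁, δ₂`, the integer `2 D_p(δ₁, δ₂)` is a quadratic residue modulo `p`: it is not divisible by `p`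
and is congruent to a square. -/
theorem result (p : ℕ) [Fact p.Prime] (hp : p % 4 = 1) (d1 d2 : ℤ) (hd1 : d1 = 1 ∨ d1 = -1)
    (hd2 : d2 = 1 ∨ d2 = -1) :
    ¬ (p : ℤ) ∣ 2 * D p d1 d2 ∧ ∃ y : ℤ, 2 * D p d1 d2 ≡ y ^ 2 [ZMOD p] := by
  have hpp := (Fact.out : p.Prime)
  have hp5 : 5 ≤ p := by
    have := hpp.two_le
    omega
  obtain ⟨m, hm⟩ : ∃ m, p = 4 * m + 1 := ⟨(p - 1) / 4, by omega⟩
  have hm1 : 1 ≤ m := by omega
  set n := 2 * m with hndef
  have hn : p = 2 * n + 1 := by omega
  -- it suffices to compute the quadratic character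
  suffices hmain : qc p ((2 * D p d1 d2 : ℤ) : ZMod p) = 1 by
    have h0 : ((2 * D p d1 d2 : ℤ) : ZMod p) ≠ 0 := by
      intro h
      rw [h, qc_zero] at hmain
      norm_num at hmain
    refine ⟨fun h => h0 ((ZMod.intCast_zmod_eq_zero_iff_dvd _ p).2 h), ?_⟩
    obtain ⟨y, hy⟩ := (quadraticChar_one_iff_isSquare h0).1 hmain
    refine ⟨(y.val : ℤ), ?_⟩
    rw [← ZMod.intCast_eq_intCast_iff, hy]
    push_cast
    rw [ZMod.natCast_zmod_val]
    ring
  have hp2 : p / 2 = n := by omega
  have hcard : (p + 1) / 2 = n + 1 := by omega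
  let a : Fin (n + 1) → ZMod p := fun j => ((j : ℕ) : ZMod p) ^ 2
  let V : Matrix (Fin (n + 1)) (Fin (n + 1)) (ZMod p) := vandermonde a
  let W : Matrix (Fin (n + 1)) (Fin (n + 1)) (ZMod p) := V.submatrix id Fin.revPerm
  let T : Matrix (Fin (n + 1)) (Fin (n + 1)) (ZMod p) := of fun r s =>
    (if r = s then (d1 : ZMod p) * (n.choose s : ZMod p) * (d2 : ZMod p) ^ (s : ℕ) else 0) +
      (if (s : ℕ) + m = r then 2 * (n.choose (2 * s) : ZMod p) else 0)
  have hdec : ((D p d1 d2 : ℤ) : ZMod p) = (W * T * Vᵀ).det := by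
    unfold D
    rw [← Matrix.det_submatrix_equiv_self (finCongr hcard.symm), ← eq_intCast (Int.castRingHom _),
      RingHom.map_det]
    congr 1
    ext j k
    simp only [RingHom.mapMatrix_apply, Matrix.map_apply, submatrix_apply, of_apply,
      finCongr_apply, Fin.val_cast, eq_intCast]
    push_cast [legendreSym.eq_pow]
    rw [hp2]
    -- the right side
    have hR : (W * T * Vᵀ) j k = ∑ s ∈ range (n + 1), (a j) ^ (n - s) * ((d1 : ZMod p) *
        (n.choose s : ZMod p) * (d2 : ZMod p) ^ s) * (a k) ^ s +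
        ∑ s ∈ range (m + 1), (a j) ^ (m - s) * (2 * (n.choose (2 * s) : ZMod p)) * (a k) ^ s := by
      have hW : ∀ r : Fin (n + 1), W j r = (a j) ^ (n - (r : ℕ)) := by
        intro r
        show (vandermonde a) j (Fin.rev r) = _
        rw [vandermonde_apply, Fin.val_rev]
        congr 1
        omega
      rw [Matrix.mul_apply]
      have h1 : ∀ s : Fin (n + 1), (W * T) j s = (a j) ^ (n - (s : ℕ)) * ((d1 : ZMod p) *
          (n.choose s : ZMod p) * (d2 : ZMod p) ^ (s : ℕ)) +
          (if (s : ℕ) < m + 1 then (a j) ^ (m - (s : ℕ)) * (2 * (n.choose (2 * s) : ZMod p)) else 0) := by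
        intro s
        rw [Matrix.mul_apply]
        have h2 : ∀ r : Fin (n + 1), W j r * T r s = (if r = s then (a j) ^ (n - (s : ℕ)) *
            ((d1 : ZMod p) * (n.choose s : ZMod p) * (d2 : ZMod p) ^ (s : ℕ)) else 0) +
            (if (s : ℕ) + m = r then (a j) ^ (n - (r : ℕ)) * (2 * (n.choose (2 * s) : ZMod p))
              else 0) := by
          intro r
          rw [hW]
          simp only [T, of_apply, mul_add, mul_ite, mul_zero]
          congr 1
          by_cases h : r = s
          · rw [if_pos h, if_pos h, h]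
          · rw [if_neg h, if_neg h]
        rw [Finset.sum_congr rfl fun r _ => h2 r, Finset.sum_add_distrib]
        congr 1
        · rw [Finset.sum_ite_eq' Finset.univ s]
          simp
        · by_cases h : (s : ℕ) < m + 1
          · rw [if_pos h]
            have hlt : (s : ℕ) + m < n + 1 := by omega
            rw [Finset.sum_eq_single (⟨(s : ℕ) + m, hlt⟩ : Fin (n + 1))]
            · rw [if_pos rfl]
              congr 2
              show n - ((s : ℕ) + m) = m - s
              omega
            · intro b _ hb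
              rw [if_neg]
              intro h3
              exact hb (Fin.ext h3.symm)
            · intro h3
              exact absurd (Finset.mem_univ _) h3
          · rw [if_neg h]
            refine Finset.sum_eq_zero fun r _ => if_neg ?_
            have := r.2
            omega
      rw [Finset.sum_congr rfl fun s _ => by rw [h1 s]]
      simp only [transpose_apply, V, vandermonde_apply, add_mul, Finset.sum_add_distrib, ite_mul,
        zero_mul]
      congr 1
      · rw [← Fin.sum_univ_eq_sum_range (fun s => (a j) ^ (n - s) * ((d1 : ZMod p) *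
          (n.choose s : ZMod p) * (d2 : ZMod p) ^ s) * (a k) ^ s) (n + 1)]
      · rw [Fin.sum_univ_eq_sum_range (fun s => if s < m + 1 then
          (a j) ^ (m - s) * (2 * (n.choose (2 * s) : ZMod p)) * (a k) ^ s else 0) (n + 1)]
        rw [← Finset.sum_filter]
        congr 1
        ext s
        simp only [Finset.mem_filter, Finset.mem_range]
        omega
    have h9 : (((j : ℕ) : ZMod p) + ((k : ℕ) : ZMod p)) ^ n + (((j : ℕ) : ZMod p) -
        ((k : ℕ) : ZMod p)) ^ n = ∑ s ∈ range (m + 1), (a j) ^ (m - s) *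
          (2 * (n.choose (2 * s) : ZMod p)) * (a k) ^ s :=
      add_pow_sub_pow ((j : ℕ) : ZMod p) ((k : ℕ) : ZMod p) m
    have h10 : (d1 : ZMod p) * (((j : ℕ) : ZMod p) ^ 2 + (d2 : ZMod p) * ((k : ℕ) : ZMod p) ^ 2) ^ n =
        ∑ s ∈ range (n + 1), (a j) ^ (n - s) * ((d1 : ZMod p) *
        (n.choose s : ZMod p) * (d2 : ZMod p) ^ s) * (a k) ^ s := by
      rw [add_comm (((j : ℕ) : ZMod p) ^ 2), add_pow, Finset.mul_sum]
      refine Finset.sum_congr rfl fun s _ => ?_
      rw [mul_pow]
      ring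
    rw [hR, ← h9, ← h10]
    ring
  have hV : V.det ≠ 0 := by
    show (vandermonde a).det ≠ 0
    rw [det_vandermonde_ne_zero_iff]
    intro i j hij
    have hij' : ((i : ℕ) : ZMod p) ^ 2 = ((j : ℕ) : ZMod p) ^ 2 := hij
    have hi := i.2
    have hj := j.2
    rcases sq_eq_sq_iff_eq_or_eq_neg.1 hij' with h | h
    · rw [ZMod.natCast_eq_natCast_iff', Nat.mod_eq_of_lt (by omega), Nat.mod_eq_of_lt (by omega)] at h
      exact Fin.ext h
    · have h1 : (((i : ℕ) + (j : ℕ) : ℕ) : ZMod p) = 0 := by
        push_cast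
        rw [h]; ring
      rw [ZMod.natCast_eq_zero_iff] at h1
      have h2 : (i : ℕ) + (j : ℕ) = 0 := by
        by_contra h0
        have := Nat.le_of_dvd (by omega) h1
        omega
      exact Fin.ext (by omega)
  have hT : T.det = ∏ s ∈ range (n + 1), ((d1 : ZMod p) * (n.choose s : ZMod p) *
      (d2 : ZMod p) ^ s) := by
    rw [det_of_isLowerTriangular T]
    · rw [← Fin.prod_univ_eq_prod_range (fun s => (d1 : ZMod p) * (n.choose s : ZMod p) *
        (d2 : ZMod p) ^ s) (n + 1)]
      refine Finset.prod_congr rfl fun s _ => ?_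
      simp only [T, of_apply, if_true]
      rw [if_neg (by omega), add_zero]
    · intro r s hrs
      have hrs' : r < s := hrs
      have h1 : (r : ℕ) < s := hrs'
      simp only [T, of_apply]
      rw [if_neg (by omega), if_neg (by omega), add_zero]
  have hone : ∀ d : ℤ, d = 1 ∨ d = -1 → qc p (d : ZMod p) = 1 := by
    intro d hd
    rcases hd with h | h
    · rw [h]; push_cast; exact qc_one
    · rw [h]; push_cast; exact qc_neg_one_of_one hp
  have hW : W.det = ((Equiv.Perm.sign (Fin.revPerm : Equiv.Perm (Fin (n + 1))) : ℤ) : ZMod p) *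
      V.det := det_permute' _ _
  have hsign : qc p ((((Equiv.Perm.sign (Fin.revPerm : Equiv.Perm (Fin (n + 1))) : ℤˣ) : ℤ) : ℤ) :
      ZMod p) = 1 := by
    apply hone
    rcases Int.units_eq_one_or (Equiv.Perm.sign (Fin.revPerm : Equiv.Perm (Fin (n + 1)))) with h | h
    · left; rw [h]; rfl
    · right; rw [h]; rfl
  have hchoose : ∀ s, s ≤ n → ((n.choose s : ℕ) : ZMod p) ≠ 0 := by
    intro s hs
    rw [Ne, ZMod.natCast_eq_zero_iff]
    intro h
    have h1 : p ∣ n.factorial := by
      rw [← Nat.choose_mul_factorial_mul_factorial hs, mul_assoc]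
      exact Dvd.dvd.mul_right h _
    rw [hpp.dvd_factorial] at h1
    omega
  push_cast
  rw [qc_mul, hdec, det_mul, det_mul, det_transpose, hW, hT, qc_mul, qc_mul, qc_mul, hsign, one_mul]
  have hprod : qc p (∏ s ∈ range (n + 1), ((d1 : ZMod p) * (n.choose s : ZMod p) *
      (d2 : ZMod p) ^ s)) = qc p ((n.choose m : ℕ) : ZMod p) := by
    have h1 : qc p (∏ s ∈ range (n + 1), ((d1 : ZMod p) * (n.choose s : ZMod p) *
        (d2 : ZMod p) ^ s)) = ∏ s ∈ range (n + 1), qc p ((n.choose s : ℕ) : ZMod p) := by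
      unfold qc
      rw [map_prod]
      refine Finset.prod_congr rfl fun s _ => ?_
      rw [map_mul, map_mul, map_pow]
      have e1 := hone d1 hd1
      have e2 := hone d2 hd2
      unfold qc at e1 e2
      rw [e1, e2, one_pow, one_mul, mul_one]
    rw [h1, hndef]
    refine prod_symm (fun s => qc p (((2 * m).choose s : ℕ) : ZMod p)) m ?_ ?_
    · intro i hi
      show qc p (((2 * m).choose (2 * m - i) : ℕ) : ZMod p) = _
      rw [Nat.choose_symm hi]
    · intro i hi
      exact qc_sq (hchoose i hi)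
  rw [hprod]
  have h2 := qc_two_choose hn hndef
  have h3 := qc_sq hV
  calc qc p 2 * (qc p V.det * qc p ((n.choose m : ℕ) : ZMod p) * qc p V.det) =
      (qc p 2 * qc p ((n.choose m : ℕ) : ZMod p)) * (qc p V.det * qc p V.det) := by ring
    _ = 1 := by rw [h2, h3, one_mul]

end

end Pool.Agent.Results.MP_f57d9c_nt.ResidueDeterminant
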